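import Pool.Agent.V1164.QD.Phi4

set_option autoImplicit false

/-!
# Restricted quasi-diagonals which are not elliptic curves exist

`E = ℂ / Λ` is an arbitrary complex elliptic curve, `℘` its Weierstrass function and `a = ℘(w)` for
a point `w` with `2 w ≠ 0`. The curve `S` consists of the points `(x, y, -x, -y)` of `E⁴` with
`(℘(x) - a) (℘(y) - a) = k`, for general `k`. The line bundle is `L = O(2 • [0])`, the pull back of
`O(1)` along `℘ - a`.
-/

namespace Pool.Agent.Results.MP_6276a2_ag.RestrictedNonElliptic

open Pool.Agent.V1164.QD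

/-- For every complex elliptic curve `E = ℂ / Λ` there are an ample line bundle `L` on `E` and a
restricted quasi-diagonal `S` over `(E, L)` in `E⁴` which is smooth and is not an elliptic
curve. -/
theorem result (P : PeriodPair) : ∃ (L : LineBundle P) (S : Set (Fin 4 → Ell P)),
    L.IsAmple ∧ IsQuasiDiagonal L S ∧ IsRestricted S ∧ (∀ p ∈ S, IsSmoothCurveAt S p) ∧
      ¬ IsElliptic S := by
  obtain ⟨k, hk⟩ := exists_goodK P
  exact ⟨(TPole P).bundle, emb4.image (SPhi P k), (TPole P).isAmple_bundle, quasi_S4 hk,
    restricted_S4, smooth_S4 hk, emb4.not_elliptic_image (not_closed_SPhi hk)⟩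

end Pool.Agent.Results.MP_6276a2_ag.RestrictedNonElliptic
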